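import Pool.Agent.Q75.HM.Stm

set_option autoImplicit false

/-! Project HM (helper75), job GO: good points of an antitone function are dense -/

namespace Pool.Agent.Q151.HM

open Set Filter Topology

theorem t_GO : Pool.Agent.Q75.HM.S_GO := by
  intro h b t hh ht htb
  have hcount := hh.countable_not_continuousWithinAt
  have hex : ∀ n : ℕ, ∃ p : ℝ, t - t / (n + 2) < p ∧ p < t ∧
      ∀ ε : ℝ, 0 < ε → ∃ s, 0 < s ∧ s < p ∧ h s < h p + ε := by
    intro n
    have hn : (0 : ℝ) < (n : ℝ) + 2 := by positivity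
    have hn2 : (1 : ℝ) ≤ (n : ℝ) + 2 := by
      have : (0 : ℝ) ≤ n := Nat.cast_nonneg n
      linarith
    have h1 : t - t / (n + 2) < t := by
      have : 0 < t / ((n : ℝ) + 2) := by positivity
      linarith
    have h0 : 0 ≤ t - t / (n + 2) := by
      have : t / ((n : ℝ) + 2) ≤ t := div_le_self ht.le hn2
      linarith
    have hunc : ¬ (Ioo (t - t / ((n : ℝ) + 2)) t).Countable := by
      intro hc
      have := hc.measure_zero MeasureTheory.volume
      rw [Real.volume_Ioo, ENNReal.ofReal_eq_zero] at this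
      linarith
    obtain ⟨p, hp, hp2⟩ : ∃ p ∈ Ioo (t - t / ((n : ℝ) + 2)) t,
        p ∉ {x | x ∈ Ioc 0 b ∧ ¬ ContinuousWithinAt h (Ioc 0 b) x} := by
      by_contra hcon
      push Not at hcon
      exact hunc (hcount.mono hcon)
    refine ⟨p, hp.1, hp.2, fun ε hε => ?_⟩
    have hp0 : 0 < p := lt_of_le_of_lt h0 hp.1
    have hpb : p ∈ Ioc 0 b := ⟨hp0, hp.2.le.trans htb⟩
    have hc : ContinuousWithinAt h (Ioc 0 b) p := by
      by_contra hcon
      exact hp2 ⟨hpb, hcon⟩
    have hc2 : ∀ᶠ s in 𝓝[Ioo 0 p] p, h s < h p + ε := by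
      have h3 : ContinuousWithinAt h (Ioo 0 p) p :=
        hc.mono fun s hs => ⟨hs.1, hs.2.le.trans hpb.2⟩
      exact h3.eventually_lt_const (by linarith)
    have hne : (𝓝[Ioo 0 p] p).NeBot := by
      rw [← mem_closure_iff_nhdsWithin_neBot, closure_Ioo hp0.ne]
      exact ⟨hp0.le, le_refl p⟩
    obtain ⟨s, hs1, hs2⟩ := (hc2.and self_mem_nhdsWithin).exists
    exact ⟨s, hs2.1, hs2.2, hs1⟩
  choose p hp1 hp2 hp3 using hex
  refine ⟨p, fun n => ⟨?_, hp2 n⟩, ?_, hp3⟩
  · have hn2 : (1 : ℝ) ≤ (n : ℝ) + 2 := by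
      have : (0 : ℝ) ≤ n := Nat.cast_nonneg n
      linarith
    have : t / ((n : ℝ) + 2) ≤ t := div_le_self ht.le hn2
    linarith [hp1 n]
  · refine tendsto_of_tendsto_of_tendsto_of_le_of_le (g := fun n : ℕ => t - t / ((n : ℝ) + 2))
      (h := fun _ => t) ?_ tendsto_const_nhds (fun n => (hp1 n).le) (fun n => (hp2 n).le)
    have h1 : Tendsto (fun n : ℕ => t / ((n : ℝ) + 2)) atTop (𝓝 0) :=
      tendsto_const_nhds.div_atTop (tendsto_natCast_atTop_atTop.atTop_add tendsto_const_nhds)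
    simpa using tendsto_const_nhds.sub h1

end Pool.Agent.Q151.HM
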