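import Pool.Agent.Q75.HM.Stm

set_option autoImplicit false

/-! Project HM (helper75), job HAR: Harnack for the quotient of two Riemann maps -/

namespace Pool.Agent.Q151.HM

open Complex Set Metric Filter Topology
open Pool.Agent.Q75.HM

theorem exRM {Ω : Set ℂ} (hΩ : Dm Ω) {p : ℂ} (hp : p ∈ Ω) : ∃ φ, RM Ω p φ :=
  Pool.Agent.Helper405.Riemann.riemann hΩ.1 hΩ.2.1 hΩ.2.2 hp

theorem t_HAR (hQB : S_QB) (hHN : S_HN) : S_HAR := by
  intro A U p z1 z r hA hU hAU hp hr hball hz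
  obtain ⟨φA, hφA⟩ := exRM hA hp
  obtain ⟨φU, hφU⟩ := exRM hU (hAU hp)
  have hz1 : z1 ∈ ball z1 r := mem_ball_self hr
  have hdA : DifferentiableOn ℂ (dslope φA p) A :=
    (differentiableOn_dslope (hA.1.mem_nhds hp)).2 hφA.1
  have hdU : DifferentiableOn ℂ (dslope φU p) U :=
    (differentiableOn_dslope (hU.1.mem_nhds (hAU hp))).2 hφU.1
  have hposA : ∀ w ∈ A, 0 < ‖dslope φA p w‖ := by
    intro w hw
    have h := hQB A p w hA hp hw
    rw [← h.1 φA hφA]
    exact h.2.1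
  have hposU : ∀ w ∈ U, 0 < ‖dslope φU p w‖ := by
    intro w hw
    have h := hQB U p w hU (hAU hp) hw
    rw [← h.1 φU hφU]
    exact h.2.1
  have hle : ∀ w ∈ A, ‖dslope φU p w‖ ≤ ‖dslope φA p w‖ := by
    intro w hw
    have h := hQB A p w hA hp hw
    have h' := hQB U p w hU (hAU hp) (hAU hw)
    rw [← h.1 φA hφA, ← h'.1 φU hφU]
    exact h.2.2.1 U hAU
  have key := hHN (fun w => dslope φU p w / dslope φA p w) z1 z r hr
    ((hdU.mono (hball.trans hAU)).div (hdA.mono hball) fun w hw => norm_pos_iff.1 (hposA w (hball hw)))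
    (fun w hw => ⟨div_ne_zero (norm_pos_iff.1 (hposU w (hAU (hball hw))))
      (norm_pos_iff.1 (hposA w (hball hw))), by
        rw [norm_div]
        exact div_le_one_of_le₀ (hle w (hball hw)) (norm_nonneg _)⟩) hz
  rw [(hQB A p z1 hA hp (hball hz1)).1 φA hφA, (hQB U p z1 hU (hAU hp) (hAU (hball hz1))).1 φU hφU,
    (hQB A p z hA hp (hball hz)).1 φA hφA, (hQB U p z hU (hAU hp) (hAU (hball hz))).1 φU hφU,
    ← norm_div, ← norm_div]
  exact key

end Pool.Agent.Q151.HM
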